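import Pool.Agent.Lib.MP_67c3d0_lc.NormalForm

namespace Pool.Agent.Results.MP_67c3d0_lc.OneND

open Pool.Agent.Lib.MP_67c3d0_lc

/-- Q1: every propagating programmed grammar has an equivalent propagating programmed grammar
in one-ND rule normal form. -/
theorem result :
    ∀ (T : Type) (G : PG T), G.Propagating →
      ∃ G' : PG T, G'.Propagating ∧ G'.OneND ∧ G'.language = G.language :=
  fun _ G hG => exists_oneND G hG

end Pool.Agent.Results.MP_67c3d0_lc.OneND
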